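import Pool.Agent.Work.MP_d1ad45_an.Core

/-!
Phase retrieval in `ℂ^4` by orthogonal projections of prescribed ranks needs no more
measurements than phase retrieval by vectors.
-/

namespace Pool.Agent.Results.MP_d1ad45_an.DimFour

/-- The norms of the orthogonal projections onto the `W n` determine a vector of `ℂ^M` up to a
unimodular scalar. -/
def AllowsPR {M N : ℕ} (W : Fin N → Submodule ℂ (EuclideanSpace ℂ (Fin M))) : Prop :=
  ∀ x y : EuclideanSpace ℂ (Fin M),
    (∀ n, ‖(W n).starProjection x‖ = ‖(W n).starProjection y‖) → ∃ c : ℂ, ‖c‖ = 1 ∧ x = c • y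

/-- Some subspaces of `ℂ^M` of dimensions `d n` allow phase retrieval. -/
def Realisable (M : ℕ) {N : ℕ} (d : Fin N → ℕ) : Prop :=
  ∃ W : Fin N → Submodule ℂ (EuclideanSpace ℂ (Fin M)),
    (∀ n, Module.finrank ℂ (W n) = d n) ∧ AllowsPR W

/-- The least number of lines in `ℂ^M` that allow phase retrieval. -/
noncomputable def N1 (M : ℕ) : ℕ := sInf {N : ℕ | Realisable M fun _ : Fin N => 1}

open Pool.Agent.Work.MP_d1ad45_an in
theorem result (N : ℕ) (hN : N1 4 ≤ N) (d : Fin N → ℕ) (hd : ∀ n, 1 ≤ d n ∧ d n ≤ 3) :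
    Realisable 4 d := by
  have hne : {N : ℕ | Realisable 4 fun _ : Fin N => 1}.Nonempty := by
    obtain ⟨N, φ, h⟩ := exists_good
    exact ⟨N, main φ h N (by simp) _ fun _ => ⟨le_rfl, by norm_num⟩⟩
  obtain ⟨W, h1, hW⟩ := Nat.sInf_mem hne
  obtain ⟨φ, hφ⟩ := good_of_lines W h1 hW
  exact main φ hφ N (by rw [Fintype.card_fin]; exact hN) d hd

end Pool.Agent.Results.MP_d1ad45_an.DimFour
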