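import Pool.Agent.Work.MP_d1ad45_an.L.Main

/-!
Phase retrieval in `ℂ^M`, `M ≥ 65`, by orthogonal projections of prescribed ranks needs no more
measurements than phase retrieval by vectors.
-/

namespace Pool.Agent.Results.MP_d1ad45_an.LargeDim

/-- The norms of the orthogonal projections onto the `W n` determine a vector of `ℂ^M` up to a
unimodular scalar. -/
def AllowsPR {M N : ℕ} (W : Fin N → Submodule ℂ (EuclideanSpace ℂ (Fin M))) : Prop :=
  ∀ x y : EuclideanSpace ℂ (Fin M),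
    (∀ n, ‖(W n).starProjection x‖ = ‖(W n).starProjection y‖) → ∃ c : ℂ, ‖c‖ = 1 ∧ x = c • y

/-- Some subspaces of `ℂ^M` of dimensions `d n` allow phase retrieval. -/
def Realisable (M : ℕ) {N : ℕ} (d : Fin N → ℕ) : Prop :=
  ∃ W : Fin N → Submodule ℂ (EuclideanSpace ℂ (Fin M)),
    (∀ n, Module.finrank ℂ (W n) = d n) ∧ AllowsPR W

/-- The least number of lines in `ℂ^M` that allow phase retrieval. -/
noncomputable def N1 (M : ℕ) : ℕ := sInf {N : ℕ | Realisable M fun _ : Fin N => 1}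

open Pool.Agent.Work.MP_d1ad45_an.L in
theorem result (M : ℕ) (hM : 65 ≤ M) (N : ℕ) (hN : N1 M ≤ N) (d : Fin N → ℕ)
    (hd : ∀ n, 1 ≤ d n ∧ d n ≤ M - 1) : Realisable M d := by
  have h0 : (2 * M - 1) * 2 ∈ {N : ℕ | Realisable M fun _ : Fin N => 1} := by
    obtain ⟨φ, h⟩ := exists_goodV' (M := M) (by omega)
    exact main hM (by omega) h le_rfl _ fun _ => ⟨le_rfl, by omega⟩
  have h1 : N1 M ≤ (2 * M - 1) * 2 := Nat.sInf_le h0
  obtain ⟨W, h2, hW⟩ := Nat.sInf_mem ⟨_, h0⟩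
  obtain ⟨φ, hφ⟩ := goodV_of_lines W h2 hW
  exact main hM (K := N1 M) (by omega) hφ hN d fun n => by have := hd n; omega

end Pool.Agent.Results.MP_d1ad45_an.LargeDim
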